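import Pool.Agent.Q91.FJ.Hyper

/-!
# Farrell–Jones groups and kernels with an ascending series

`Closed C` (`Pool.Agent.Y462.SS.Base`): the class `C` of groups contains `ℤ` and is closed under
groups that embed, finite products, free products, overgroups of finite index and colimits of directed
systems with arbitrary structure maps.  `ExtClosed C` (`Pool.Agent.Q152.WP.Perm`): if `G` maps onto a
group `Q` of `C`, and the kernel and the preimages of all infinite cyclic subgroups of `Q` are in `C`,
then `G` is in `C`.  `HasSolvable C`: all solvable groups are in `C`.  All these properties are known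
for the class of the groups which satisfy the K-theoretic Farrell–Jones conjecture with additive
category coefficients and finite wreath products.

`ByCyclic C D`: all groups with a homomorphism to `ℤ` with kernel isomorphic to `D` are in `C`.

Outline of the proof.  Let `K` be normal in `G` with `G / K` in `C`.  The normal subgroups `N ≤ K` of
`G` such that all `N ⟨t⟩`, `t ∈ G`, are in `C` form an inductive set.  If `N` is a maximal one and
`M / N` a good factor, the extension property for `M ⟨t⟩ → M ⟨t⟩ / N` shows that `M` is one of them: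
the quotient is good-by-cyclic, and the preimages of its cyclic subgroups are of the form `N ⟨s⟩`.
-/

set_option autoImplicit false

namespace Pool.Agent.Results.MP_5d3e93_al.AscendingKernels

open Pool.Agent.Y462.SS Pool.Agent.Q152.WP Pool.Agent.Q91.FJ

variable {C : ∀ (G : Type) [Group G], Prop}

theorem locFin_equiv {G E : Type} [Group G] [Group E] {K : Subgroup G} {L : Subgroup E}
    (e : L ≃* K) (h : LocFin K) : LocFin L := by
  classical
  intro s hs
  have h1 := h (s.attach.image (fun x => ((e ⟨x.1, hs x.1 x.2⟩ : K) : G))) (by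
    intro x hx
    obtain ⟨y, -, rfl⟩ := Finset.mem_image.1 hx
    exact (e _).2)
  have hle : Subgroup.closure (s : Set E) ≤ L := (Subgroup.closure_le _).2 hs
  have h2 : ∀ x (hx : x ∈ Subgroup.closure (s : Set E)), ((e ⟨x, hle hx⟩ : K) : G) ∈
      Subgroup.closure ((s.attach.image (fun x => ((e ⟨x.1, hs x.1 x.2⟩ : K) : G)) : Finset G) :
        Set G) := by
    intro x hx
    induction hx using Subgroup.closure_induction with
    | mem x hx =>
      apply Subgroup.subset_closure
      rw [Finset.mem_coe]
      exact Finset.mem_image.2 ⟨⟨x, hx⟩, Finset.mem_attach _ _, rfl⟩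
    | one =>
      have h3 : (⟨1, hle (one_mem _)⟩ : L) = 1 := rfl
      rw [h3, map_one]
      exact one_mem _
    | mul x y hx hy h3 h4 =>
      have h5 : (⟨x * y, hle (mul_mem hx hy)⟩ : L) = ⟨x, hle hx⟩ * ⟨y, hle hy⟩ := rfl
      rw [h5, map_mul]
      exact mul_mem h3 h4
    | inv x hx h3 =>
      have h5 : (⟨x⁻¹, hle (inv_mem hx)⟩ : L) = ⟨x, hle hx⟩⁻¹ := rfl
      rw [h5, map_inv]
      exact inv_mem h3
  refine Finite.of_injective (fun x : Subgroup.closure (s : Set E) =>
    (⟨((e ⟨x.1, hle x.2⟩ : K) : G), h2 x.1 x.2⟩ : Subgroup.closure _)) ?_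
  intro a b hab
  have h3 := congrArg (fun z : Subgroup.closure _ => (z : G)) hab
  have h4 := e.injective (Subtype.ext h3)
  exact Subtype.ext (congrArg (fun z : L => (z : E)) h4)

theorem byCyclic_locFin (hC : Closed C) {G : Type} [Group G] {K : Subgroup G} (h : LocFin K) :
    ByCyclic C K := by
  rintro E _ φ ⟨e⟩
  exact lf_int hC φ (locFin_equiv e h)

theorem byCyclic_laws (hC : Closed C) (hE : ExtClosed C) (hS : HasSolvable C) {K A : Type}
    [Group K] [Group A] (hA : VSolv A) (h : SatLaws A K) : ByCyclic C K := by
  rintro E _ φ ⟨e⟩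
  refine laws_kernel hC hE hS φ.rangeRestrict φ.rangeRestrict_surjective
    (hC.of_injective _ _ φ.range.subtype φ.range.subtype_injective hC.int) hA ?_
  refine h.trans ?_
  have h1 : SatLaws K φ.ker := SatLaws.of_injective e.toMonoidHom e.injective
  have h2 : φ.rangeRestrict.ker = φ.ker := φ.ker_rangeRestrict
  rw [h2]
  exact h1

/-- the normal closure of an element with finitely many conjugates is virtually abelian -/
theorem vsolv_normalClosure {G : Type} [Group G] (x : G) (hx : {y | IsConj x y}.Finite) :
    VSolv (Subgroup.normalClosure {x}) := by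
  classical
  obtain ⟨L, hL⟩ : ∃ L : Subgroup G, L = Subgroup.normalClosure {x} := ⟨_, rfl⟩
  rw [← hL]
  have hLc : L = Subgroup.closure {y | IsConj x y} := by
    rw [hL, Subgroup.normalClosure, Group.conjugatesOfSet]
    simp [conjugatesOf]
  let T : Set G := {y | IsConj x y}
  have hT : Finite T := hx.to_subtype
  have hconj : ∀ (g : G) (y : G), y ∈ T → g * y * g⁻¹ ∈ T := by
    intro g y hy
    exact IsConj.trans hy (isConj_iff.2 ⟨g, rfl⟩)
  let ρ : L →* Equiv.Perm T :=
    { toFun := fun l =>
        { toFun := fun y => ⟨l * y * (l : G)⁻¹, hconj l y y.2⟩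
          invFun := fun y => ⟨(l : G)⁻¹ * y * l, by
            have := hconj (l : G)⁻¹ y y.2
            rwa [inv_inv] at this⟩
          left_inv := fun y => Subtype.ext (by simp [mul_assoc])
          right_inv := fun y => Subtype.ext (by simp [mul_assoc]) }
      map_one' := by
        ext y
        simp
      map_mul' := fun a b => by
        ext y
        simp [mul_assoc] }
  refine ⟨ρ.ker, inferInstance, Subgroup.finiteIndex_ker ρ, ?_⟩
  apply Group.isSolvable_of_comm
  rintro ⟨a, ha⟩ ⟨b, hb⟩
  apply Subtype.ext
  apply Subtype.ext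
  change (a : G) * b = b * a
  have h1 : ∀ y ∈ T, (a : G) * y = y * a := by
    intro y hy
    have h2 := DFunLike.congr_fun (MonoidHom.mem_ker.1 ha) ⟨y, hy⟩
    have h3 : (a : G) * y * (a : G)⁻¹ = y := congrArg Subtype.val h2
    rw [mul_inv_eq_iff_eq_mul] at h3
    exact h3
  have h2 : (b : G) ∈ Subgroup.closure T := hLc.le b.2
  have h3 : Subgroup.closure T ≤ Subgroup.centralizer {(a : G)} := by
    rw [Subgroup.closure_le]
    intro y hy
    rw [SetLike.mem_coe, Subgroup.mem_centralizer_singleton_iff]
    exact (h1 y hy).symm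
  exact ((Subgroup.mem_centralizer_singleton_iff.1 (h3 h2))).symm

/-- Let `C` be a class of groups with the closure properties `Closed C` and `ExtClosed C`, `K` a
normal subgroup of `G` with `G / K` in `C`.
(1) If for every normal subgroup `N < K` of `G` there is a normal subgroup `M` of `G`, `N < M ≤ K`,
such that all `(M / N)`-by-cyclic groups are in `C`, then `G` is in `C`. (So `K` has an ascending,
possibly transfinite, series of normal subgroups of `G` with such factors.)
(2) If `C` contains the solvable groups, it suffices that for every `N` there is `M` such that `M / N`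
is locally finite or satisfies all laws of some virtually solvable group, for instance is abelian.
(3) If `C` contains the solvable groups, it suffices that for every `N` there is an element of `K`
not in `N` which has finitely many conjugates in `G / N`: `K` is contained in the upper FC-central
series (of any length) of `G`. -/
theorem result (C : ∀ (G : Type) [Group G], Prop) (hC : Closed C) (hE : ExtClosed C) (G : Type)
    [Group G] (K : Subgroup G) [K.Normal] (hQ : C (G ⧸ K)) :
    ((∀ (N : Subgroup G) [N.Normal], N < K → ∃ M : Subgroup G, M.Normal ∧ N < M ∧ M ≤ K ∧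
      ByCyclic C (M.map (QuotientGroup.mk' N))) → C G) ∧
    (HasSolvable C → (∀ (N : Subgroup G) [N.Normal], N < K → ∃ M : Subgroup G, M.Normal ∧ N < M ∧
      M ≤ K ∧ (LocFin (M.map (QuotientGroup.mk' N)) ∨
        ∃ (A : Type) (_ : Group A), VSolv A ∧ SatLaws A (M.map (QuotientGroup.mk' N)))) → C G) ∧
    (HasSolvable C → (∀ (N : Subgroup G) [N.Normal], N < K → ∃ x ∈ K, x ∉ N ∧
      {y | IsConj (QuotientGroup.mk' N x) y}.Finite) → C G) := by
  have h2 : HasSolvable C → (∀ (N : Subgroup G) [N.Normal], N < K → ∃ M : Subgroup G, M.Normal ∧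
      N < M ∧ M ≤ K ∧ (LocFin (M.map (QuotientGroup.mk' N)) ∨
        ∃ (A : Type) (_ : Group A), VSolv A ∧ SatLaws A (M.map (QuotientGroup.mk' N)))) → C G := by
    intro hS h
    refine hyper hC hE K hQ (fun N _ hN => ?_)
    obtain ⟨M, h1, h2, h3, h4⟩ := h N hN
    refine ⟨M, h1, h2, h3, ?_⟩
    rcases h4 with h4 | ⟨A, _, hA, h4⟩
    · exact byCyclic_locFin hC h4
    · exact byCyclic_laws hC hE hS hA h4
  refine ⟨fun h => hyper hC hE K hQ h, h2, fun hS h => h2 hS (fun N _ hN => ?_)⟩
  obtain ⟨x, hxK, hxN, hx⟩ := h N hN
  let L : Subgroup (G ⧸ N) := Subgroup.normalClosure {QuotientGroup.mk' N x}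
  have hmap : (L.comap (QuotientGroup.mk' N)).map (QuotientGroup.mk' N) = L :=
    Subgroup.map_comap_eq_self_of_surjective (QuotientGroup.mk'_surjective N) L
  have hNle : N ≤ L.comap (QuotientGroup.mk' N) := by
    intro y hy
    rw [Subgroup.mem_comap, (QuotientGroup.eq_one_iff y).2 hy |> fun h =>
      (show QuotientGroup.mk' N y = 1 from h)]
    exact one_mem _
  refine ⟨L.comap (QuotientGroup.mk' N), inferInstance, lt_of_le_of_ne hNle ?_, ?_, Or.inr
    ⟨L, inferInstance, vsolv_normalClosure _ hx, ?_⟩⟩
  · intro heq
    apply hxN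
    rw [heq, Subgroup.mem_comap]
    exact Subgroup.subset_normalClosure rfl
  · have hKn : (K.map (QuotientGroup.mk' N)).Normal :=
      Subgroup.Normal.map inferInstance _ (QuotientGroup.mk'_surjective N)
    have h1 : L ≤ K.map (QuotientGroup.mk' N) := by
      apply Subgroup.normalClosure_le_normal
      rintro _ rfl
      exact Subgroup.mem_map_of_mem _ hxK
    intro y hy
    obtain ⟨z, hz, hzy⟩ := h1 (Subgroup.mem_comap.1 hy)
    have h3 : z⁻¹ * y ∈ N := QuotientGroup.eq.1 hzy
    have h4 : y = z * (z⁻¹ * y) := by group
    rw [h4]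
    exact mul_mem hz (hN.le h3)
  · rw [hmap]
    exact fun w hw => hw

end Pool.Agent.Results.MP_5d3e93_al.AscendingKernels
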