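import Pool.Agent.Q91.VR.Det
import Pool.Agent.Y84.PH.G

/-!
# `K₀(K[G])` and cyclic cohomology of positive even degree at the elements of infinite order, for
# groups with torsion

Let `K` be a field of characteristic zero (a regular ring). If the assembly map for `K₀(K[G])` is
surjective, then `K₀(K[G])` is generated by the images of `K₀(K[F])`, `F ≤ G` finite, and the cycles
`(Ω, δ, T)` over `K[G]` in the sense of Connes which vanish on the tuples with a product of finite
order vanish on all idempotent matrices `e`: `T (e (δ e) ^ (2 n)) = 0`.  We prove this, for `n ≥ 1`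
and cycles with values in a finitely generated module over a finitely generated subring, for all
groups, possibly with torsion, in which the elements of infinite order of finitely generated
subgroups `H` are detected by actions of `H` by increasing piecewise projective homeomorphisms of
the line, linear representations of `H` in characteristic zero, or homomorphisms from `H` to
virtually residually finite `p`-groups, for infinitely many primes `p`.
-/

set_option autoImplicit false

namespace Pool.Agent.Results.MP_5d3e93_al.EvenCyclesTorsion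

open Pool.Agent.Q91.VR

universe u1 u2 u3 u4 u5

/-- `(Ω, δ, T)` is a cycle of dimension `N` with values in the vector space `M`: `Ω` is a graded
algebra with homogeneous components `𝒜 i`, `δ` is a differential of degree one, and `T` is a
closed graded trace which vanishes outside degree `N`. -/
structure IsCycle {K : Type u1} [Field K] {Ω : Type u4} [Ring Ω] [Algebra K Ω] {M : Type u5}
    [AddCommGroup M] [Module K M] (N : ℕ) (𝒜 : ℕ → Submodule K Ω) [GradedAlgebra 𝒜]
    (δ : Ω →ₗ[K] Ω) (T : Ω →ₗ[K] M) : Prop where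
  deg : ∀ i, ∀ x ∈ 𝒜 i, δ x ∈ 𝒜 (i + 1)
  sq : ∀ x, δ (δ x) = 0
  leibniz : ∀ i, ∀ x ∈ 𝒜 i, ∀ y, δ (x * y) = δ x * y + (-1) ^ i * (x * δ y)
  closed : ∀ x, T (δ x) = 0
  trace : ∀ i j, ∀ x ∈ 𝒜 i, ∀ y ∈ 𝒜 j, T (x * y) = T ((-1) ^ (i * j) * (y * x))
  dim : ∀ i, i ≠ N → ∀ x ∈ 𝒜 i, T x = 0

/-- The value of the cycle on the group elements `a`, `b₁`, …, `b_r`. -/
noncomputable def value {K : Type u1} [Field K] {G : Type u2} [Group G] {Ω : Type u4} [Ring Ω]
    [Algebra K Ω] {M : Type u5} [AddCommGroup M] [Module K M] (δ : Ω →ₗ[K] Ω) (T : Ω →ₗ[K] M)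
    (ρ : MonoidAlgebra K G →ₐ[K] Ω) (a : G) (l : List G) : M :=
  T (ρ (MonoidAlgebra.single a 1) * (l.map fun b => δ (ρ (MonoidAlgebra.single b 1))).prod)

/-- `K` is a field of characteristic zero, `G` a group in which the elements of infinite order of
finitely generated subgroups are detected, `e` an idempotent matrix over `K[G]`, `H` the subgroup
generated by the supports of its entries, `(Ω, δ, T)` a cycle over `K[G]` of dimension `2 n ≥ 2`
whose values on `H` lie in the module generated by a finite set `F` over the subring generated by a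
finite set `s`, and are zero if the product of the group elements has finite order. Then
`T (e (δ e) ^ (2 n)) = 0`. -/
theorem result (K : Type u1) [Field K] [CharZero K] (G : Type u2) [Group G]
    (hG : ∀ H : Subgroup G, H.FG → ∀ g : H, (∀ m : ℕ, 0 < m → g ^ m ≠ 1) → Detected g)
    (d : Type u3) [Fintype d] [DecidableEq d] (e : Matrix d d (MonoidAlgebra K G)) (he : e * e = e)
    (H : Subgroup G) (hH : H = Subgroup.closure {g | ∃ i j, (e i j).coeff g ≠ 0})
    (Ω : Type u4) [Ring Ω] [Algebra K Ω] (𝒜 : ℕ → Submodule K Ω) [GradedAlgebra 𝒜]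
    (M : Type u5) [AddCommGroup M] [Module K M] (δ : Ω →ₗ[K] Ω) (T : Ω →ₗ[K] M)
    (n : ℕ) (hn : 1 ≤ n) (hT : IsCycle (2 * n) 𝒜 δ T)
    (ρ : MonoidAlgebra K G →ₐ[K] Ω) (hρ : ∀ a, ρ a ∈ 𝒜 0) (s : Finset K) (F : Finset M)
    (hval : ∀ (a : H) (l : List H), l.length = 2 * n →
      value δ T ρ a (l.map Subtype.val) ∈
        Submodule.span (Algebra.adjoin ℤ (s : Set K)) (F : Set M))
    (hfin : ∀ (a : H) (l : List H) (m : ℕ), l.length = 2 * n → 0 < m → (a * l.prod) ^ m = 1 →
      value δ T ρ a (l.map Subtype.val) = 0) :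
    T ((e.map ρ) * ((e.map ρ).map δ) ^ (2 * n)).trace = 0 := by
  classical
  have hFG : H.FG := by
    refine ⟨Finset.univ.biUnion fun i => Finset.univ.biUnion fun j => (e i j).coeff.support, ?_⟩
    rw [hH]
    congr 1
    ext g
    simp [Finsupp.mem_support_iff]
  have : Group.FG H := (Group.fg_iff_subgroup_fg H).2 hFG
  have hmap : ∀ (a : H) (l : List H),
      value δ T ρ a (l.map Subtype.val) = T (ρ (MonoidAlgebra.single (a : G) 1) *
        (l.map fun b : H => δ (ρ (MonoidAlgebra.single (b : G) 1))).prod) := by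
    intro a l
    unfold value
    rw [List.map_map]
    rfl
  simp only [hmap] at hval hfin
  refine Pool.Agent.Y84.PH.cyc_field e he H
    (fun i j g hg => by rw [hH]; exact Subgroup.subset_closure ⟨i, j, hg⟩) hn
    ⟨hT.deg, hT.sq, hT.leibniz, hT.closed, hT.trace, hT.dim⟩ hρ s F hval ?_ ?_
  · rintro g hg ⟨m, J, hm, hJ, hconj⟩
    by_cases hinf : ∀ k : ℕ, 0 < k → g ^ k ≠ 1
    · exfalso
      obtain ⟨p, ⟨hp, hb⟩, hmp⟩ :=
        ((inf_primes (hG H hFG g hinf)).sdiff (Set.finite_Iic m)).nonempty
      apply hb J hJ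
      apply hconj p
      rw [Nat.Prime.coprime_iff_not_dvd hp]
      intro hd
      exact hmp (Nat.le_of_dvd (by omega) hd)
    · push Not at hinf
      obtain ⟨k, hk, h1⟩ := hinf
      refine Or.inl fun a l hl hc => hfin a l k hl hk ?_
      obtain ⟨c, hc⟩ := isConj_iff.1 hc
      rw [← hc, conj_pow, h1]
      group
  · exact Or.inr fun a l hl h1 => hfin a l 1 hl one_pos (by rw [h1, one_pow])

end Pool.Agent.Results.MP_5d3e93_al.EvenCyclesTorsion
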