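import Pool.Agent.H106FJ.InfV

/-!
# Farrell–Jones type classes: contracting self-similar groups over infinite alphabets

`C` is any class of groups with the closure properties `Closed C` and `ExtClosed C`, all of which are
known for the class of the groups that satisfy the K-theoretic Farrell–Jones conjecture with additive
category coefficients and finite wreath products.  `X` is an arbitrary set of letters, finite or
infinite.

Let `G` be a self-similar group: `ψ : G → G ≀ Perm X`, with faithful action on the words.  Let `𝒩` be a
nucleus (for example a finite one; in general it is enough that each element of `𝒩` has only finitely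
many different sections).  If the group of the permutations of the letters induced by `G` and the
universal cover of `G` (generators `𝒩`, relations `a b = c`) are in `C`, so is `G`.
-/

set_option autoImplicit false

namespace Pool.Agent.Results.MP_5d3e93_al.FiniteNucleus

open Pool.Agent.Y462.SS Pool.Agent.Q152.WP Pool.Agent.H106FJ

/-- The group of the permutations of the letters induced by `G`. -/
def letterPerms {X G : Type} [Group G] (ψ : G →* Wr X G) : Subgroup (Equiv.Perm X) :=
  (prm (G := fun _ => G) (fun _ => ψ) 0).range

/-- Contracting self-similar groups and their universal covers. -/
def Covers (C : ∀ (G : Type) [Group G], Prop) : Prop :=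
  ∀ (X G : Type) [Group G] (ψ : G →* Wr X G) (𝒩 : Set G),
    (∀ g, (∀ w, act ψ g w = w) → g = 1) → IsNucleusV ψ 𝒩 → C (letterPerms ψ) →
      C (CoverV 𝒩) → C G

theorem result (C : ∀ (G : Type) [Group G], Prop) (hC : Closed C) (hE : ExtClosed C) :
    Covers C :=
  fun _ _ _ ψ _ hψ h hP hN => universalV hC hE ψ hψ h hP hN

end Pool.Agent.Results.MP_5d3e93_al.FiniteNucleus
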