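import Pool.Agent.Q91.PP.SubR
import Pool.Agent.W644.HK.CharP

/-!
# The Dennis trace `K_n(k[G]) → HH_n(k[G])`, `n ≥ 1`, in characteristic `p`, for groups of piecewise
# projective homeomorphisms

Let `k` be a reduced commutative ring of characteristic `p`, for example a field, and let `G` be a
group which is residually a group of increasing piecewise projective homeomorphisms of the line over
subrings of `ℝ` in which `p` is not invertible; for example Thompson's group `F`, `p` odd.  Let `z`
be any cycle of degree `n + 1 ≥ 1` in the bar complex (coefficients `ℤ`) of the group of invertible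
matrices over `k[G]`; every class of `K_{n+1}(k[G])` gives such a `z` by the Hurewicz map
`K_{n+1}(k[G]) → H_{n+1}(GL(k[G]); ℤ)`.  Its Dennis trace is a class in
`HH_{n+1}(k[G]) = ⨁_{[g]} H_{n+1}(C_G(g); k)`; we show that its component at `[g]` is zero for all
`g ≠ 1`, and that its component at `1` is fixed by the Frobenius.
-/

set_option autoImplicit false

namespace Pool.Agent.Results.MP_5d3e93_al.HigherTraceCharP

open Pool.Agent.W644.HK

universe u v w x

/-- `f` is piecewise projective over the subring `B`: there are finitely many invertible matrices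
over `B` such that `f` is given by one of the corresponding maps `z ↦ (α z + β) / (γ z + δ)` near
`-∞` and to the right of each point of the line. -/
def PiecewiseProjectiveOver (B : Subring ℝ) (f : ℝ → ℝ) : Prop :=
  ∃ S : Finset (Matrix (Fin 2) (Fin 2) ℝ),
    (∀ M ∈ S, (∀ i j, M i j ∈ B) ∧ M.det ≠ 0 ∧ (M.det)⁻¹ ∈ B) ∧
    (∃ M ∈ S, ∃ b : ℝ, ∀ z < b, f z * (M 1 0 * z + M 1 1) = M 0 0 * z + M 0 1) ∧
    ∀ a : ℝ, ∃ M ∈ S, ∃ b > a, ∀ z, a < z → z < b →
      f z * (M 1 0 * z + M 1 1) = M 0 0 * z + M 0 1

lemma prod_contractNth {G : Type*} [Monoid G] {n : ℕ} (g : Fin (n + 2) → G) (i : Fin (n + 1)) :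
    (List.ofFn (Fin.contractNth i.castSucc (· * ·) g)).prod = (List.ofFn g).prod := by
  have h := congrFun (Fin.partialProd_contractNth g i.castSucc) (Fin.last (n + 1))
  have h1 : ∀ (m : ℕ) (x : Fin m → G), Fin.partialProd x (Fin.last m) = (List.ofFn x).prod := by
    intro m x
    rw [Fin.partialProd, Fin.val_last, List.take_of_length_le (by simp)]
  rw [h1, Function.comp_apply] at h
  rw [h, ← h1 (n + 2) g]
  congr 1
  rw [Fin.succAbove, if_neg]
  · rfl
  · rw [Fin.lt_def]
    simp only [Fin.val_castSucc, Fin.val_last, Fin.val_succ]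
    omega

lemma hoch_restrict {G : Type*} [Group G] {V : Type*} [AddCommGroup V] {n : ℕ}
    (f : (Fin (n + 1) → G) → V) (hf : IsHochschildCocycle f) (Q : G → Prop) [DecidablePred Q]
    (hQ : ∀ x g, Q (x * g * x⁻¹) ↔ Q g) :
    IsHochschildCocycle fun g : Fin (n + 1) → G => if Q (List.ofFn g).prod then f g else 0 := by
  intro g
  have h1 : ∀ i : Fin (n + 1), Q (List.ofFn (Fin.contractNth i.castSucc (· * ·) g)).prod ↔
      Q (List.ofFn g).prod := fun i => by rw [prod_contractNth]
  have h2 : Q (List.ofFn (Fin.cons (g (Fin.last (n + 1)) * g 0)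
      fun i : Fin n => g i.castSucc.succ : Fin (n + 1) → G)).prod ↔ Q (List.ofFn g).prod := by
    rw [← hQ (g (Fin.last (n + 1))) (List.ofFn g).prod]
    have h3 : (List.ofFn (Fin.cons (g (Fin.last (n + 1)) * g 0)
        fun i : Fin n => g i.castSucc.succ : Fin (n + 1) → G)).prod =
        g (Fin.last (n + 1)) * (List.ofFn g).prod * (g (Fin.last (n + 1)))⁻¹ := by
      rw [List.ofFn_succ, List.ofFn_succ' (f := g), List.concat_eq_append, List.prod_append,
        List.prod_cons, List.prod_singleton, List.ofFn_succ (f := fun i : Fin (n + 1) => g i.castSucc),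
        List.prod_cons]
      simp only [Fin.cons_zero, Fin.cons_succ, Fin.castSucc_zero, Fin.castSucc_succ]
      group
    rw [h3]
  by_cases hq : Q (List.ofFn g).prod
  · have h4 := hf g
    simp only [h1, h2, hq, if_true]
    exact h4
  · simp only [h1, h2, hq, if_false, smul_zero, Finset.sum_const_zero, add_zero]

lemma dennis_split {k : Type u} [CommRing k] {G : Type v} [Group G] {r : Type w}
    [Fintype r] [DecidableEq r] {V : Type x} [AddCommGroup V] [Module k V] {n : ℕ}
    (f : (Fin (n + 1) → G) → V) (Q : G → Prop) [DecidablePred Q]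
    (z : (Fin n → (Matrix r r (MonoidAlgebra k G))ˣ) →₀ ℤ) :
    dennis f z = dennis (fun g => if Q (List.ofFn g).prod then f g else 0) z +
      dennis (fun g => if Q (List.ofFn g).prod then 0 else f g) z := by
  rw [dennis_eq, dennis_eq, dennis_eq, ← Finset.sum_add_distrib]
  apply Finset.sum_congr rfl
  intro x _
  rw [← smul_add]
  congr 1
  have h := SS_sum (k := k) (Units.coeHom (Matrix r r (MonoidAlgebra k G)))
    (Finset.univ : Finset (Fin 2))
    ![cf (fun g : Fin (n + 1) → G => if Q (List.ofFn g).prod then f g else 0),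
      cf (fun g : Fin (n + 1) → G => if Q (List.ofFn g).prod then 0 else f g)] (List.ofFn x)
  rw [Fin.sum_univ_two] at h
  simp only [Matrix.cons_val_zero, Matrix.cons_val_one] at h
  rw [← h]
  congr 1
  funext g l
  rw [Fin.sum_univ_two]
  simp only [Matrix.cons_val_zero, Matrix.cons_val_one]
  by_cases hl : l.length = n + 1
  · rw [cf_of_length f g l hl, cf_of_length _ g l hl, cf_of_length _ g l hl]
    split_ifs <;> simp
  · rw [cf_of_length_ne f g l hl, cf_of_length_ne _ g l hl, cf_of_length_ne _ g l hl, add_zero]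

theorem result (p : ℕ) [Fact p.Prime] (k : Type u) [CommRing k] [CharP k p] [IsReduced k]
    (G : Type v) [Group G]
    (hG : ∀ g : G, g ≠ 1 → ∃ (B : Subring ℝ) (ρ : G →* (ℝ ≃o ℝ)),
      (p : ℝ)⁻¹ ∉ B ∧ (∀ x, PiecewiseProjectiveOver B (ρ x)) ∧ ρ g ≠ 1)
    (r : Type w) [Fintype r] [DecidableEq r] (n : ℕ)
    (z : (Fin (n + 1) → (Matrix r r (MonoidAlgebra k G))ˣ) →₀ ℤ) (hz : barBoundary z = 0) :
    (∀ (V : Type x) [AddCommGroup V] [Module k V] (f : (Fin (n + 2) → G) → V),
      IsHochschildCocycle f →
      (∀ g : Fin (n + 2) → G, (List.ofFn g).prod = 1 → f g = 0) → dennis f z = 0) ∧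
    (∀ f : (Fin (n + 2) → G) → k, IsHochschildCocycle f → (∀ g, f g ^ p = f g) →
      dennis f z ^ p = dennis f z) := by
  classical
  have hG' : Pool.Agent.Q91.PP.ResPP p G := hG
  have hpos : 0 < p := (Fact.out : p.Prime).pos
  have hroot : ∀ a b : G, a ^ p = b ^ p → a = b := fun a b hab => hG'.root hpos hab
  have hdiv : ∀ (h x : G) (j : ℕ), 1 ≤ j → x * h * x⁻¹ = h ^ p ^ j → h = 1 := by
    intro h x j hj hc
    by_contra hne
    let H : Subgroup G := Subgroup.closure {h, x}
    have hFG : Group.FG H := (Group.fg_iff_subgroup_fg H).2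
      ⟨{h, x}, by simp [H]⟩
    have hh : h ∈ H := Subgroup.subset_closure (by simp)
    have hx : x ∈ H := Subgroup.subset_closure (by simp)
    have hconj : IsConj (⟨h, hh⟩ : H) (⟨h, hh⟩ ^ p ^ j) :=
      isConj_iff.2 ⟨⟨x, hx⟩, Subtype.ext (by simpa using hc)⟩
    have h1 := Pool.Agent.Q91.PP.divisible_of_conj hj hconj
    obtain ⟨k, hk⟩ := (hG'.subgroup H).div hpos (g := ⟨h, hh⟩)
      (fun hc => hne (congrArg Subtype.val hc))
    obtain ⟨y, hy⟩ := h1 k
    exact hk y hy
  have part1 : ∀ (V : Type x) [AddCommGroup V] [Module k V] (f : (Fin (n + 2) → G) → V),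
      IsHochschildCocycle f →
      (∀ g : Fin (n + 2) → G, (List.ofFn g).prod = 1 → f g = 0) → dennis f z = 0 := by
    intro V _ _ f hf h1
    exact dennis_vanish hroot z hz f hf fun g x j hj hc => h1 g (hdiv _ x j hj hc)
  have part1' : ∀ f : (Fin (n + 2) → G) → k,
      IsHochschildCocycle f →
      (∀ g : Fin (n + 2) → G, (List.ofFn g).prod = 1 → f g = 0) → dennis f z = 0 := by
    intro f hf h1
    exact dennis_vanish hroot z hz f hf fun g x j hj hc => h1 g (hdiv _ x j hj hc)
  refine ⟨part1, fun f hf hfr => ?_⟩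
  have hQ : ∀ x g : G, (x * g * x⁻¹ = 1) ↔ g = 1 := fun x g => conj_eq_one_iff
  rw [dennis_split f (fun g => g = 1) z]
  have h2 : dennis (fun g : Fin (n + 2) → G => if (List.ofFn g).prod = 1 then 0 else f g) z = 0 := by
    apply part1'
    · have := hoch_restrict f hf (fun g => g ≠ 1) (fun x g => not_congr (hQ x g))
      convert this using 2 with g
      by_cases h : (List.ofFn g).prod = 1
      · rw [if_pos h, if_neg (not_not.2 h)]
      · rw [if_neg h, if_pos h]
    · intro g hg
      rw [if_pos hg]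
  rw [h2, add_zero]
  apply dennis_one hroot z hz _ (hoch_restrict f hf (fun g => g = 1) hQ)
  · intro g
    split_ifs
    · exact hfr g
    · exact zero_pow hpos.ne'
  · intro g hg
    rw [if_neg hg]

end Pool.Agent.Results.MP_5d3e93_al.HigherTraceCharP
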